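import Pool.Agent.Helper70.BI.C.EndA
import Pool.Agent.Helper18.BI.S5.FinDefs8

/-!
# Barbells in the 4-sphere: the implantations of elementary barbells are trivial up to one central element of
order two
-/

set_option autoImplicit false

open Pool.Agent.Helper65.Barb
open Pool.Agent.Helper70.Fin (Emb)
open Pool.Agent.Helper18.FinS hiding Elementary
open Pool.Agent.Helper18.FinT (Elementary)

namespace Pool.Agent.Results.MP_8e98f2_gt.ElementaryBarbells

/-- There is a diffeomorphism `W` of the 4-sphere, the implantation of a barbell whose two core spheres bound
disjoint embedded 3-balls, which has order at most two and is central up to isotopy, such that the implantation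
of every elementary barbell is isotopic to the identity or to `W`.

The class of elementary barbells (`Pool.Agent.Helper18.FinT.Elementary`) is the smallest class of barbells which
contains the barbells with unknotted moved cuff and is closed under exchanging the two cuffs (with any bar) and
under sums: a barbell is elementary if the class of its moved cuff in the second homotopy group of the complement
of its fixed cuff `A` is in the subgroup generated by the classes of the moved cuffs of finitely many elementary
barbells with the fixed cuff `A`, the class of the parallel copy of `A` and the quotients of freely homotopic
elements.  Both cuffs may be knotted and linked. -/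
theorem result :
    ∃ (W : S4 → S4) (B₀ : Emb), IsImplantation B₀ W ∧ BoundsDisjointBalls B₀ ∧
      Isotopic (fun x => W (W x)) (fun x => x) ∧ IsCentral W ∧
      ∀ (B : Emb) (φ : S4 → S4), Elementary B → IsImplantation B φ → UpTo W φ (fun x => x) :=
  Pool.Agent.Helper70.T.topElem

end Pool.Agent.Results.MP_8e98f2_gt.ElementaryBarbells
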