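import Pool.Agent.Helper70.BI.C.EndD
import Pool.Agent.Helper18.BI.R.FinDefs3
import Pool.Agent.Helper70.BI.FinDefs

/-!
# Barbells in the 4-sphere: the exact dependence of the implantation on the bar
-/

set_option autoImplicit false

open Pool.Agent.Helper65.Barb
open Pool.Agent.Helper70.Fin (Emb SameCuffs)
open Pool.Agent.Helper18.FinS

namespace Pool.Agent.Results.MP_8e98f2_gt.ExactBarLaw

/-- There is a diffeomorphism `W` of the 4-sphere, the implantation of a barbell whose two core spheres bound
disjoint embedded 3-balls, which has order at most two and is central up to isotopy, such that for every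
barbell `B` in the 4-sphere (the two cuffs may be arbitrarily knotted and linked) and every implantation `φ`
of `B`: the isotopy classes of the implantations of the barbells with the same cuffs as `B` (and any bar) are
exactly the classes of `φ` and of `W ∘ φ`. -/
theorem result :
    ∃ (W : S4 → S4) (B₀ : Emb), IsImplantation B₀ W ∧ BoundsDisjointBalls B₀ ∧
      Isotopic (fun x => W (W x)) (fun x => x) ∧ IsCentral W ∧
      ∀ (B : Emb) (φ ψ : S4 → S4), IsImplantation B φ →
        ((∃ (B' : Emb) (φ' : S4 → S4), SameCuffs B B' ∧ IsImplantation B' φ' ∧ Isotopic ψ φ') ↔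
          UpTo W ψ φ) :=
  Pool.Agent.Helper70.T.topExact

end Pool.Agent.Results.MP_8e98f2_gt.ExactBarLaw
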