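import Pool.Agent.Helper70.BI.C.EndC
import Pool.Agent.Helper18.BI.R.FinDefs3

/-!
# Barbells in the 4-sphere: a vanishing criterion by the knot group of one cuff
-/

set_option autoImplicit false

open Pool.Agent.Helper65.Barb
open Pool.Agent.Helper70.Fin (Emb)
open Pool.Agent.Helper18.FinS

namespace Pool.Agent.Results.MP_8e98f2_gt.KnotGroupVanishing

/-- the fundamental group of the complement of the fixed cuff of `B` -/
abbrev KnotGroup (B : Emb) (y₀ : Off B) : Type :=
  FundamentalGroup (Off B) y₀

/-- the third homology group of a group, with integer coefficients -/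
noncomputable def H3 (G : Type) [Group G] : ModuleCat ℤ :=
  groupHomology (Rep.trivial ℤ G ℤ) 3

/-- The knot group of the fixed cuff of `B` has trivial third homology group, or is infinite cyclic. -/
def SmallGroup (B : Emb) (y₀ : Off B) : Prop :=
  Subsingleton (H3 (KnotGroup B y₀)) ∨ Nonempty (KnotGroup B y₀ ≃* Multiplicative ℤ)

/-- There is a diffeomorphism `W` of the 4-sphere, the implantation of a barbell whose two core spheres bound
disjoint embedded 3-balls, which has order at most two and is central up to isotopy, such that: if `A` is the
fixed cuff of the barbell `B` (a possibly knotted 2-sphere) and the third homology group of the knot group of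
`A` is trivial, or the knot group of `A` is infinite cyclic, then the implantation of `B` and the implantations
of all barbells obtained from `B` by exchanging the two cuffs (with any bar) are isotopic to the identity or
to `W`. -/
theorem result :
    ∃ (W : S4 → S4) (B₀ : Emb), IsImplantation B₀ W ∧ BoundsDisjointBalls B₀ ∧
      Isotopic (fun x => W (W x)) (fun x => x) ∧ IsCentral W ∧
      ∀ (B B' : Emb) (y₀ : Off B) (φ : S4 → S4), IsBarbell B → IsBase B y₀ → SmallGroup B y₀ →
        (B' = B ∨ Exchanged B B') → IsImplantation B' φ → UpTo W φ (fun x => x) := by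
  obtain ⟨W, B₀, h1, h2, h3, h4, -, h6⟩ := Pool.Agent.Helper70.T.topGHB
  exact ⟨W, B₀, h1, h2, h3, h4, h6⟩

end Pool.Agent.Results.MP_8e98f2_gt.KnotGroupVanishing
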